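import Mathlib
import Pool.Agent.H57.Bas2

set_option autoImplicit false

open Pool.Agent.H57.Bas

namespace Pool.Agent.Results.MP_6f3246_lc.FiniteBasis

/-- Three consequences of PFA imply that the class `C` has a finite basis. -/
theorem result (h1 : FiniteBasisLO) (h2 : SH) (h3 : BA) : FiniteBasisC :=
  main h1 h2 h3

end Pool.Agent.Results.MP_6f3246_lc.FiniteBasis
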